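import Mathlib
import Pool.Agent.Lib.MP_84c3f1_co.Core

/-!
The additive coloring number is unbounded on connected bipartite graphs.
-/

set_option autoImplicit false

namespace Pool.Agent.Results.MP_84c3f1_co.Unbounded

open Finset

open Classical in
/-- The sum of the labels over the open neighbourhood of `u`. -/
noncomputable def nbSum {V : Type} [Fintype V] (G : SimpleGraph V) (f : V → ℕ) (u : V) : ℕ :=
  ∑ x : V, if G.Adj u x then f x else 0

/-- `f` is an additive coloring of `G`: the labels are positive integers and adjacent vertices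
have different neighbourhood sums. -/
def IsAdditive {V : Type} [Fintype V] (G : SimpleGraph V) (f : V → ℕ) : Prop :=
  (∀ v, 0 < f v) ∧ ∀ u v, G.Adj u v → nbSum G f u ≠ nbSum G f v

/-- The additive coloring number: the least positive integer `k` such that `G` has an additive
coloring with all labels in `{1, …, k}`. -/
noncomputable def eta {V : Type} [Fintype V] (G : SimpleGraph V) : ℕ :=
  sInf {k : ℕ | 0 < k ∧ ∃ f : V → ℕ, IsAdditive G f ∧ ∀ v, f v ≤ k}

lemma nbSum_eq {V : Type} [Fintype V] (G : SimpleGraph V) [DecidableRel G.Adj] (f : V → ℕ)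
    (u : V) : nbSum G f u = ∑ w ∈ G.neighborFinset u, f w := by
  classical
  have h1 : (∑ w ∈ G.neighborFinset u, f w) = ∑ w : V, if w ∈ G.neighborFinset u then f w else 0 := by
    rw [Finset.sum_ite_mem, Finset.univ_inter]
  rw [h1]
  unfold nbSum
  apply Finset.sum_congr rfl
  intro w _
  by_cases h : G.Adj u w
  · rw [if_pos h, if_pos ((G.mem_neighborFinset u w).2 h)]
  · rw [if_neg h, if_neg (fun h' => h ((G.mem_neighborFinset u w).1 h'))]

/-- Additive colorings transfer along isomorphisms. -/
lemma transfer {V W : Type} [Fintype V] [Fintype W] (G : SimpleGraph V) (H : SimpleGraph W)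
    (e : V ≃ W) (he : ∀ u v, G.Adj u v ↔ H.Adj (e u) (e v)) (f : W → ℕ) (hf : IsAdditive H f) :
    IsAdditive G (fun v => f (e v)) := by
  classical
  have key : ∀ u, nbSum G (fun v => f (e v)) u = nbSum H f (e u) := by
    intro u
    unfold nbSum
    rw [← Equiv.sum_comp e (fun w => if H.Adj (e u) w then f w else 0)]
    apply Finset.sum_congr rfl
    intro v _
    by_cases h : G.Adj u v
    · rw [if_pos h, if_pos ((he u v).1 h)]
    · rw [if_neg h, if_neg (fun h' => h ((he u v).2 h'))]
  refine ⟨fun v => hf.1 _, fun u v huv => ?_⟩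
  rw [key, key]
  exact hf.2 _ _ ((he u v).1 huv)

/-- Additive colorings of the components give one of the graph. -/
lemma components {V : Type} [Fintype V] (G : SimpleGraph V) (C : ℕ)
    (h : ∀ c : G.ConnectedComponent, ∀ [Fintype c], ∃ f : c → ℕ,
      IsAdditive c.toSimpleGraph f ∧ ∀ v, f v ≤ C) :
    ∃ f : V → ℕ, IsAdditive G f ∧ ∀ v, f v ≤ C := by
  classical
  have hfin : ∀ c : G.ConnectedComponent, Fintype c := fun c => Fintype.ofFinite _
  choose g hg using fun c => @h c (hfin c)
  have hmem : ∀ v : V, v ∈ G.connectedComponentMk v := fun v =>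
    SimpleGraph.ConnectedComponent.connectedComponentMk_mem
  let F : V → ℕ := fun v => g (G.connectedComponentMk v) ⟨v, hmem v⟩
  have hF : ∀ (c : G.ConnectedComponent) (v : V) (hv : v ∈ c), F v = g c ⟨v, hv⟩ := by
    intro c v hv
    obtain rfl : G.connectedComponentMk v = c := hv
    rfl
  have key : ∀ (c : G.ConnectedComponent) (u : V) (hu : u ∈ c),
      nbSum G F u = @nbSum c (hfin c) c.toSimpleGraph (g c) ⟨u, hu⟩ := by
    intro c u hu
    letI := hfin c
    unfold nbSum
    have h1 : (∑ x : V, if G.Adj u x then F x else 0)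
        = ∑ x ∈ univ.filter (fun x : V => x ∈ c), if G.Adj u x then F x else 0 := by
      symm
      apply Finset.sum_subset (Finset.filter_subset _ _)
      intro x _ hx
      rw [if_neg]
      intro hadj
      apply hx
      rw [mem_filter]
      refine ⟨mem_univ _, ?_⟩
      have h2 : G.connectedComponentMk x = G.connectedComponentMk u :=
        SimpleGraph.ConnectedComponent.sound hadj.symm.reachable
      have h3 : G.connectedComponentMk u = c := hu
      show G.connectedComponentMk x = c
      rw [h2, h3]
    rw [h1]
    symm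
    apply Finset.sum_bij (fun (x : c) _ => x.1)
    · intro x _
      rw [mem_filter]
      exact ⟨mem_univ _, x.2⟩
    · intro x _ y _ hxy
      exact Subtype.ext hxy
    · intro x hx
      rw [mem_filter] at hx
      exact ⟨⟨x, hx.2⟩, mem_univ _, rfl⟩
    · intro x _
      have hadj : c.toSimpleGraph.Adj ⟨u, hu⟩ x ↔ G.Adj u x.1 :=
        SimpleGraph.ConnectedComponent.toSimpleGraph_adj c hu x.2
      by_cases h : G.Adj u x.1
      · rw [if_pos h, if_pos (hadj.2 h), hF c x.1 x.2]
      · rw [if_neg h, if_neg (fun h' => h (hadj.1 h'))]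
  refine ⟨F, ⟨fun v => (hg _).1.1 _, fun u v huv => ?_⟩, fun v => (hg _).2 _⟩
  have hv : v ∈ G.connectedComponentMk u :=
    SimpleGraph.ConnectedComponent.sound huv.symm.reachable
  rw [key _ u (hmem u), key _ v hv]
  apply (hg _).1.2
  exact (SimpleGraph.ConnectedComponent.toSimpleGraph_adj _ (hmem u) hv).2 huv

/-- A connected bipartite graph has an additive coloring. -/
lemma exists_additive {V : Type} [Fintype V] (G : SimpleGraph V) (hc : G.Colorable 2) :
    ∃ k : ℕ, 0 < k ∧ ∃ f : V → ℕ, IsAdditive G f ∧ ∀ v, f v ≤ k := by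
  classical
  obtain ⟨c⟩ := hc
  let n := Fintype.card V
  refine ⟨n + 1, Nat.succ_pos _, fun v => if c v = 0 then 1 else n + 1, ⟨?_, ?_⟩, ?_⟩
  · intro v
    show 0 < (if c v = 0 then 1 else n + 1)
    split_ifs <;> omega
  · -- sums at the two ends of an edge
    have hlow : ∀ u v, G.Adj u v → c u = 0 →
        n + 1 ≤ nbSum G (fun v => if c v = 0 then 1 else n + 1) u := by
      intro u v huv hu
      unfold nbSum
      have hv : c v ≠ 0 := by
        intro h; exact c.valid huv (hu.trans h.symm)
      calc n + 1 = (if G.Adj u v then (if c v = 0 then 1 else n + 1) else 0) := by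
            rw [if_pos huv, if_neg hv]
        _ ≤ _ := Finset.single_le_sum
            (f := fun x => if G.Adj u x then (if c x = 0 then 1 else n + 1) else 0)
            (fun x _ => Nat.zero_le _) (mem_univ v)
    have hup : ∀ u, c u ≠ 0 → nbSum G (fun v => if c v = 0 then 1 else n + 1) u ≤ n := by
      intro u hu
      unfold nbSum
      calc (∑ x, if G.Adj u x then (if c x = 0 then 1 else n + 1) else 0) ≤ ∑ _x : V, 1 := by
            apply Finset.sum_le_sum
            intro x _
            by_cases h : G.Adj u x
            · rw [if_pos h]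
              have h1 : c x = 0 := by
                have h2 : c u ≠ c x := c.valid h
                have h3 := (c u).isLt
                have h4 := (c x).isLt
                by_contra h5
                apply h2
                ext
                have h6 : (c u).val ≠ 0 := fun h' => hu (Fin.ext h')
                have h7 : (c x).val ≠ 0 := fun h' => h5 (Fin.ext h')
                omega
              rw [if_pos h1]
            · rw [if_neg h]; exact Nat.zero_le _
        _ = n := by simp [n]
    intro u v huv heq
    by_cases hu : c u = 0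
    · have hv : c v ≠ 0 := fun h => c.valid huv (hu.trans h.symm)
      have h1 := hlow u v huv hu
      have h2 := hup v hv
      omega
    · have hv : c v = 0 := by
        have h2 : c u ≠ c v := c.valid huv
        have h3 := (c u).isLt
        have h4 := (c v).isLt
        by_contra h5
        apply h2
        ext
        have h6 : (c u).val ≠ 0 := fun h' => hu (Fin.ext h')
        have h7 : (c v).val ≠ 0 := fun h' => h5 (Fin.ext h')
        omega
      have h1 := hlow v u huv.symm hv
      have h2 := hup u hu
      omega
  · intro v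
    show (if c v = 0 then 1 else n + 1) ≤ n + 1
    split_ifs <;> omega

/-- For every `C` there is a finite connected bipartite graph `G` with `η(G) > C`. -/
theorem result (C : ℕ) :
    ∃ (n : ℕ) (G : SimpleGraph (Fin n)), G.Connected ∧ G.Colorable 2 ∧ C < eta G := by
  classical
  by_contra hcon
  push Not at hcon
  -- every connected bipartite graph on `Fin n` has an additive coloring with labels at most `C`
  have h1 : ∀ (n : ℕ) (G : SimpleGraph (Fin n)), G.Connected → G.Colorable 2 →
      ∃ f : Fin n → ℕ, IsAdditive G f ∧ ∀ v, f v ≤ C := by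
    intro n G hG hc
    have h2 : eta G ≤ C := hcon n G hG hc
    have h3 : {k : ℕ | 0 < k ∧ ∃ f : Fin n → ℕ, IsAdditive G f ∧ ∀ v, f v ≤ k}.Nonempty :=
      exists_additive G hc
    obtain ⟨_, f, hf, hfk⟩ := Nat.sInf_mem h3
    exact ⟨f, hf, fun v => (hfk v).trans h2⟩
  -- hence every connected finite bipartite graph
  have h2 : ∀ (V : Type) [Fintype V] (G : SimpleGraph V), G.Connected → G.Colorable 2 →
      ∃ f : V → ℕ, IsAdditive G f ∧ ∀ v, f v ≤ C := by
    intro V _ G hG hc
    let e : V ≃ Fin (Fintype.card V) := Fintype.equivFin V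
    let H : SimpleGraph (Fin (Fintype.card V)) := G.comap e.symm
    let i : G ≃g H := ⟨e, by intro a b; simp [H]⟩
    have hH : H.Connected := i.connected_iff.1 hG
    have hHc : H.Colorable 2 := hc.of_hom i.symm.toHom
    obtain ⟨f, hf, hfC⟩ := h1 _ H hH hHc
    refine ⟨fun v => f (e v), transfer G H e (fun u v => ?_) f hf, fun v => hfC _⟩
    simp [H]
  -- hence every finite bipartite graph
  obtain ⟨A, B, _, _, rl, hrl⟩ := Pool.Agent.Lib.MP_84c3f1_co.main (C + 1) (Nat.succ_pos C)
  obtain ⟨f, hf, hfC⟩ := components (Pool.Agent.Lib.MP_84c3f1_co.bip rl) C (by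
    intro c _
    apply h2 _ _ c.connected_toSimpleGraph
    exact (Pool.Agent.Lib.MP_84c3f1_co.bip_colorable rl).of_hom c.toSimpleGraph_hom)
  obtain ⟨u, v, huv, heq⟩ := hrl f (fun v => ⟨hf.1 v, (hfC v).trans (Nat.le_succ C)⟩)
  apply hf.2 u v huv
  rw [nbSum_eq, nbSum_eq]
  exact heq

end Pool.Agent.Results.MP_84c3f1_co.Unbounded
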